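import Pool.Agent.Lib.MP_061452_co.OF.Loc

set_option autoImplicit false

open Pool.Agent.Lib.MP_061452_co Pool.Agent.Lib.MP_061452_co.OF

namespace Pool.Agent.Results.MP_061452_co.BridgeComponent

theorem result (V : Type) [Fintype V] (E : Type) [Fintype E] (ends : E → Sym2 V)
    (hloopless : ∀ e : E, ¬ (ends e).IsDiag)
    (hcubic : ∀ v : V, {e : E | v ∈ ends e}.ncard = 3)
    (hnocut : ∀ x u v : V, u ≠ x → v ≠ x → (SimpleGraph.fromRel (fun a b : V =>
      a ≠ x ∧ b ≠ x ∧ ∃ e : E, ends e = s(a, b))).Reachable u v)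
    (S : Set E) (hS : IsCircuit ends S) (x : V) (hx : Touches ends S x)
    (hsep : ∀ a b : V, Relation.ReflTransGen (BLink ends S) x a →
      Relation.ReflTransGen (BLink ends S) x b →
      3 ≤ {u | Touches ends S u ∧ SameBridge ends S a u}.ncard →
      3 ≤ {u | Touches ends S u ∧ SameBridge ends S b u}.ncard →
      ¬ SameBridge ends S a b →
      (∃ z : V, Touches ends S z ∧ ¬ SameBridge ends S z a ∧ ¬ SameBridge ends S z b ∧
        ¬ Relation.ReflTransGen (fun u v => BLink ends S u v ∧
          ¬ SameBridge ends S z u ∧ ¬ SameBridge ends S z v) a b) ∨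
      ¬ Relation.ReflTransGen (fun u v => BLink ends S u v ∧
        ¬ (SameBridge ends S a u ∧ SameBridge ends S b v) ∧
        ¬ (SameBridge ends S b u ∧ SameBridge ends S a v)) a b) :
    ∃ F : Set E, F ≠ S ∧ IsCircuit ends F ∧ IsCircuit ends (symmDiff S F) ∧
      BridgesAttach ends S F :=
  overlap_local hloopless hcubic hnocut hS hx hsep

end Pool.Agent.Results.MP_061452_co.BridgeComponent
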