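import Pool.Agent.Lib.MP_061452_co.OF.LocC

set_option autoImplicit false

open Pool.Agent.Lib.MP_061452_co Pool.Agent.Lib.MP_061452_co.OF

namespace Pool.Agent.Results.MP_061452_co.ClawsComponent

theorem result (V : Type) [Fintype V] (E : Type) [Fintype E] (ends : E → Sym2 V)
    (hloopless : ∀ e : E, ¬ (ends e).IsDiag)
    (hcubic : ∀ v : V, {e : E | v ∈ ends e}.ncard = 3)
    (hnocut : ∀ x u v : V, u ≠ x → v ≠ x → (SimpleGraph.fromRel (fun a b : V =>
      a ≠ x ∧ b ≠ x ∧ ∃ e : E, ends e = s(a, b))).Reachable u v)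
    (S : Set E) (hS : IsCircuit ends S)
    (hsmall : {q : V | ¬ Touches ends S q}.ncard ≤ 3 ∨
      ∃ r : V, Touches ends S r ∧ ∃ T : Set V, T.ncard ≤ 3 ∧ ∀ q : V, ¬ Touches ends S q →
        (∃ a ∈ Attach ends S q, Relation.ReflTransGen (BLink ends S) r a) →
        (3 ≤ (Attach ends S q).ncard → ∃ x ∈ T, (Outside ends S).Reachable q x) ∧
        (4 ≤ (Attach ends S q).ncard → ∃ x ∈ T, ∃ y ∈ T, x ≠ y ∧
          (Outside ends S).Reachable q x ∧ (Outside ends S).Reachable q y)) :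
    ∃ F : Set E, F ≠ S ∧ IsCircuit ends F ∧ IsCircuit ends (symmDiff S F) ∧
      BridgesAttach ends S F :=
  hsmall.elim (fun h => TC.three_claws hloopless hcubic hnocut hS h (TC.three_missing hcubic))
    (fun ⟨_, h0, _, h1, h2⟩ => claws_local hloopless hcubic hnocut hS h0 h1 h2)

end Pool.Agent.Results.MP_061452_co.ClawsComponent
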