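import Pool.Agent.Lib.MP_061452_co.OF.LocT

set_option autoImplicit false

open Pool.Agent.Lib.MP_061452_co Pool.Agent.Lib.MP_061452_co.OF

namespace Pool.Agent.Results.MP_061452_co.OverlapTree

theorem result (V : Type) [Fintype V] (E : Type) [Fintype E] (ends : E → Sym2 V)
    (hloopless : ∀ e : E, ¬ (ends e).IsDiag)
    (hcubic : ∀ v : V, {e : E | v ∈ ends e}.ncard = 3)
    (S P : Set E) (x y : V) (hS : IsCircuit ends S) (hP : IsPath ends P x y)
    (hdisj : Disjoint P S) (hx : Touches ends S x) (hy : Touches ends S y)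
    (hsep : ∀ a b : V, Relation.ReflTransGen (Link ends S P x y) x a →
      Relation.ReflTransGen (Link ends S P x y) x b →
      3 ≤ {u | Touches ends S u ∧ SameClass ends S P x y a u}.ncard →
      3 ≤ {u | Touches ends S u ∧ SameClass ends S P x y b u}.ncard →
      ¬ SameClass ends S P x y a b →
      (∃ z : V, Touches ends S z ∧ ¬ SameClass ends S P x y z a ∧ ¬ SameClass ends S P x y z b ∧
        ¬ Relation.ReflTransGen (fun u v => Link ends S P x y u v ∧
          ¬ SameClass ends S P x y z u ∧ ¬ SameClass ends S P x y z v) a b) ∨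
      ¬ Relation.ReflTransGen (fun u v => Link ends S P x y u v ∧
        ¬ (SameClass ends S P x y a u ∧ SameClass ends S P x y b v) ∧
        ¬ (SameClass ends S P x y b u ∧ SameClass ends S P x y a v)) a b) :
    ∃ F : Set E, P ⊆ F ∧ F ≠ S ∧ IsCircuit ends F ∧ IsCircuit ends (symmDiff S F) ∧
      BridgesAttach ends S F :=
  tree_local hloopless hcubic hS hP hdisj hx hy hsep

end Pool.Agent.Results.MP_061452_co.OverlapTree
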